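import Mathlib

namespace Pool.Agent.Results.MP_7677b2_pr.Median
open Classical
open scoped ENNReal NNReal

/-- The local energy at `v`. -/
noncomputable def Psi {n : ℕ} (G : SimpleGraph (Fin n)) (p : ℝ) (f : Fin n → ℝ) (v : Fin n)
    (y : ℝ) : ℝ := ∑ w ∈ Finset.univ.filter (G.Adj v), |y - f w| ^ p

/-- One update at `v`: the value becomes the minimizer of the local energy. -/
noncomputable def upd {n : ℕ} (G : SimpleGraph (Fin n)) (p : ℝ) (f : Fin n → ℝ) (v : Fin n) :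
    Fin n → ℝ :=
  Function.update f v (Classical.epsilon fun y => ∀ z, Psi G p f v y ≤ Psi G p f v z)

noncomputable def osc {n : ℕ} (f : Fin n → ℝ) : ℝ := (⨆ v, f v) - ⨅ v, f v

/-- Number of update sequences of length `t` with consensus time larger than `t`. -/
noncomputable def cnt {n : ℕ} (G : SimpleGraph (Fin n)) (p ε : ℝ) (t : ℕ) (f : Fin n → ℝ) : ℕ :=
  (Finset.univ.filter fun w : Fin t → Fin n =>
    ∀ s, s ≤ t → ε < osc (((List.ofFn w).take s).foldl (upd G p) f)).card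

/-- Expected consensus time, as the sum over `t` of the probability that it exceeds `t`. -/
noncomputable def expT {n : ℕ} (G : SimpleGraph (Fin n)) (p ε : ℝ) (f : Fin n → ℝ) : ℝ≥0∞ :=
  ∑' t, (cnt G p ε t f : ℝ≥0∞) / (n : ℝ≥0∞) ^ t

lemma cnt_zero {n : ℕ} (G : SimpleGraph (Fin n)) (p ε : ℝ) (t : ℕ) (f : Fin n → ℝ)
    (h : osc f ≤ ε) : cnt G p ε t f = 0 := by
  rw [cnt, Finset.card_eq_zero, Finset.filter_eq_empty_iff]
  intro w _ hw
  have := hw 0 (Nat.zero_le _)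
  simp only [List.take_zero, List.foldl_nil] at this
  linarith

lemma cnt_le {n : ℕ} (G : SimpleGraph (Fin n)) (p ε : ℝ) (t : ℕ) (f : Fin n → ℝ) :
    cnt G p ε t f ≤ n ^ t := (Finset.card_filter_le _ _).trans (by simp)

lemma cnt_succ {n : ℕ} (G : SimpleGraph (Fin n)) (p ε : ℝ) (t : ℕ) (f : Fin n → ℝ) :
    cnt G p ε (t + 1) f ≤ ∑ v, cnt G p ε t (upd G p f v) := by
  simp only [cnt]
  rw [← Finset.card_sigma]
  refine Finset.card_le_card_of_injOn (fun w => ⟨w 0, fun i => w i.succ⟩) ?_ ?_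
  · intro w hw
    simp only [Finset.coe_filter, Finset.mem_univ, true_and, Set.mem_ofPred_eq] at hw
    simp only [Finset.mem_coe, Finset.mem_sigma, Finset.mem_univ, true_and, Finset.mem_filter]
    intro s hs
    have := hw (s + 1) (by omega)
    rwa [List.ofFn_succ, List.take_succ_cons, List.foldl_cons] at this
  · intro a _ b _ h
    simp only [Sigma.mk.injEq, heq_eq_eq] at h
    funext i
    refine Fin.cases h.1 (fun j => congrFun h.2 j) i

lemma le_osc {n : ℕ} (f : Fin n → ℝ) (u v : Fin n) : f u - f v ≤ osc f :=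
  sub_le_sub (le_ciSup (Set.finite_range f).bddAbove u) (ciInf_le (Set.finite_range f).bddBelow v)

lemma osc_le (f : Fin 4 → ℝ) (a b : ℝ) (h : ∀ v, a ≤ f v ∧ f v ≤ b) : osc f ≤ b - a :=
  sub_le_sub (ciSup_le fun v => (h v).2) (le_ciInf fun v => (h v).1)

/-- three-point energy -/
noncomputable def P3 (p a b c y : ℝ) : ℝ := |y - a| ^ p + |y - b| ^ p + |y - c| ^ p

def IsMin3 (p a b c y : ℝ) : Prop := ∀ z, P3 p a b c y ≤ P3 p a b c z

abbrev I01 (x : ℝ) : Prop := 0 ≤ x ∧ x ≤ 1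

lemma far {p x y z : ℝ} (hp : 0 < p) (h : |z - x| < |y - x|) : |z - x| ^ p < |y - x| ^ p :=
  Real.rpow_lt_rpow (abs_nonneg _) h hp

lemma out_lt {p a b c y : ℝ} (hp : 0 < p) (ha : I01 a) (hb : I01 b) (hc : I01 c) (hy : ¬ I01 y) :
    ∃ z, I01 z ∧ P3 p a b c z < P3 p a b c y := by
  rcases not_and_or.1 hy with h | h
  · have k : ∀ x, I01 x → |0 - x| ^ p < |y - x| ^ p := fun x hx => far hp (by
      rw [abs_of_nonpos (by linarith [hx.1]), abs_of_nonpos (by linarith [hx.1])]; linarith)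
    exact ⟨0, ⟨le_rfl, zero_le_one⟩, by unfold P3; linarith [k a ha, k b hb, k c hc]⟩
  · have k : ∀ x, I01 x → |1 - x| ^ p < |y - x| ^ p := fun x hx => far hp (by
      rw [abs_of_nonneg (by linarith [hx.2]), abs_of_nonneg (by linarith [hx.2])]; linarith)
    exact ⟨1, ⟨zero_le_one, le_rfl⟩, by unfold P3; linarith [k a ha, k b hb, k c hc]⟩

lemma ex_min {p a b c : ℝ} (hp : 0 < p) (ha : I01 a) (hb : I01 b) (hc : I01 c) :
    ∃ y, IsMin3 p a b c y := by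
  have k : ∀ x : ℝ, Continuous fun y : ℝ => |y - x| ^ p := fun x =>
    (continuous_id.sub continuous_const).abs.rpow_const fun _ => Or.inr hp.le
  obtain ⟨y, -, hy⟩ := (isCompact_Icc (a := (0 : ℝ)) (b := 1)).exists_isMinOn ⟨0, by simp⟩
    (((k a).add (k b)).add (k c)).continuousOn
  refine ⟨y, fun z => ?_⟩
  by_cases hz : I01 z
  · exact hy hz
  · obtain ⟨z', h1, h2⟩ := out_lt hp ha hb hc hz
    exact (hy h1).trans h2.le

lemma min_mem {p a b c y : ℝ} (hp : 0 < p) (ha : I01 a) (hb : I01 b) (hc : I01 c)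
    (h : IsMin3 p a b c y) : I01 y := by
  by_contra hy
  obtain ⟨z, -, h2⟩ := out_lt hp ha hb hc hy
  exact absurd (h z) h2.not_ge

lemma pow_near {p x : ℝ} (hp : 1 < p) (h0 : 0 ≤ x) (h1 : x ≤ 1) : x - (p - 1) ≤ x ^ p ∧ x ^ p ≤ x := by
  rcases h0.eq_or_lt with h | h
  · subst h; rw [Real.zero_rpow (by linarith)]; constructor <;> linarith
  constructor
  · have e1 : x ^ p = x * Real.exp (Real.log x * (p - 1)) := by
      rw [← Real.rpow_def_of_pos h, ← Real.rpow_one_add' h0 (by linarith)]; congr 1; ring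
    have e2 := Real.add_one_le_exp (Real.log x * (p - 1))
    have e3 := Real.one_sub_inv_le_log_of_pos h
    have e4 : x - 1 ≤ x * Real.log x := by
      have := mul_le_mul_of_nonneg_left e3 h0
      rwa [mul_sub, mul_inv_cancel₀ h.ne', mul_one] at this
    rw [e1]
    nlinarith [mul_le_mul_of_nonneg_left e2 h0, mul_le_mul_of_nonneg_right e4 (sub_pos.2 hp).le,
      mul_nonneg h0 (sub_pos.2 hp).le]
  · simpa using Real.rpow_le_rpow_of_exponent_ge h h1 hp.le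

lemma cmp {p a b c y : ℝ} (hp : 1 < p) (ha : I01 a) (hb : I01 b) (hc : I01 c)
    (h : IsMin3 p a b c y) {z : ℝ} (hz : I01 z) :
    |y - a| + |y - b| + |y - c| ≤ |z - a| + |z - b| + |z - c| + 3 * (p - 1) := by
  have hy := min_mem (by linarith) ha hb hc h
  have k : ∀ u x, I01 u → I01 x → |u - x| - (p - 1) ≤ |u - x| ^ p ∧ |u - x| ^ p ≤ |u - x| :=
    fun u x hu hx => pow_near hp (abs_nonneg _)
      (abs_le.2 ⟨by linarith [hu.1, hx.2], by linarith [hu.2, hx.1]⟩)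
  have := h z
  unfold P3 at this
  linarith [(k y a hy ha).1, (k y b hy hb).1, (k y c hy hc).1, (k z a hz ha).2, (k z b hz hb).2,
    (k z c hz hc).2]

lemma perm1 {p a b c y : ℝ} (h : IsMin3 p a b c y) : IsMin3 p b a c y := fun z => by
  have := h z; unfold P3 at *; linarith

lemma perm2 {p a b c y : ℝ} (h : IsMin3 p a b c y) : IsMin3 p c a b y := fun z => by
  have := h z; unfold P3 at *; linarith

lemma lo {p a b c y u : ℝ} (hp : 1 < p) (ha : I01 a) (hb : I01 b) (hc : I01 c)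
    (h : IsMin3 p a b c y) (h1 : u ≤ b) (h2 : u ≤ c) : u - 3 * (p - 1) ≤ y := by
  by_contra hh
  have hz : I01 (min b c) := ⟨le_min hb.1 hc.1, (min_le_left _ _).trans hb.2⟩
  have := cmp hp ha hb hc h hz
  have e1 := min_le_left b c
  have e2 := min_le_right b c
  have e3 := le_min h1 h2
  have e4 := abs_sub_le (min b c) y a
  rw [abs_of_nonneg (by linarith : 0 ≤ min b c - y)] at e4
  rw [abs_of_nonpos (by linarith : y - b ≤ 0), abs_of_nonpos (by linarith : y - c ≤ 0),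
    abs_of_nonpos (by linarith : min b c - b ≤ 0), abs_of_nonpos (by linarith : min b c - c ≤ 0)]
    at this
  linarith

lemma hi {p a b c y u : ℝ} (hp : 1 < p) (ha : I01 a) (hb : I01 b) (hc : I01 c)
    (h : IsMin3 p a b c y) (h1 : b ≤ u) (h2 : c ≤ u) : y ≤ u + 3 * (p - 1) := by
  by_contra hh
  have hz : I01 (max b c) := ⟨hb.1.trans (le_max_left _ _), max_le hb.2 hc.2⟩
  have := cmp hp ha hb hc h hz
  have e1 := le_max_left b c
  have e2 := le_max_right b c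
  have e3 := max_le h1 h2
  have e4 := abs_sub_le (max b c) y a
  rw [abs_of_nonpos (by linarith : max b c - y ≤ 0)] at e4
  rw [abs_of_nonneg (by linarith : 0 ≤ y - b), abs_of_nonneg (by linarith : 0 ≤ y - c),
    abs_of_nonneg (by linarith : 0 ≤ max b c - b), abs_of_nonneg (by linarith : 0 ≤ max b c - c)]
    at this
  linarith

lemma ex_med (a b c : ℝ) : ∃ m, ((m ≤ b ∧ m ≤ c) ∨ (m ≤ a ∧ m ≤ c) ∨ (m ≤ a ∧ m ≤ b)) ∧
    ((b ≤ m ∧ c ≤ m) ∨ (a ≤ m ∧ c ≤ m) ∨ (a ≤ m ∧ b ≤ m)) := by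
  rcases le_total a b with h1 | h1 <;> rcases le_total b c with h2 | h2 <;>
    rcases le_total a c with h3 | h3
  · exact ⟨b, by simp [*], by simp [*]⟩
  · exact ⟨b, by simp [*], by simp [*]⟩
  · exact ⟨c, by simp [*], by simp [*]⟩
  · exact ⟨a, by simp [*], by simp [*]⟩
  · exact ⟨a, by simp [*], by simp [*]⟩
  · exact ⟨c, by simp [*], by simp [*]⟩
  · exact ⟨b, by simp [*], by simp [*]⟩
  · exact ⟨b, by simp [*], by simp [*]⟩

lemma mean_of_min {a b c y : ℝ} (h : IsMin3 2 a b c y) : y = (a + b + c) / 3 := by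
  have := h ((a + b + c) / 3)
  simp only [P3, Real.rpow_two, sq_abs] at this
  nlinarith [sq_nonneg (y - (a + b + c) / 3)]

lemma upd_spec {p : ℝ} (hp : 0 < p) (f : Fin 4 → ℝ) (hf : ∀ v, I01 (f v)) :
    (∃ y, IsMin3 p (f 1) (f 2) (f 3) y ∧ upd ⊤ p f 0 = ![y, f 1, f 2, f 3]) ∧
    (∃ y, IsMin3 p (f 0) (f 2) (f 3) y ∧ upd ⊤ p f 1 = ![f 0, y, f 2, f 3]) ∧
    (∃ y, IsMin3 p (f 0) (f 1) (f 3) y ∧ upd ⊤ p f 2 = ![f 0, f 1, y, f 3]) ∧
    (∃ y, IsMin3 p (f 0) (f 1) (f 2) y ∧ upd ⊤ p f 3 = ![f 0, f 1, f 2, y]) := by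
  have key : ∀ (v a b c : Fin 4), (∀ y, Psi ⊤ p f v y = P3 p (f a) (f b) (f c) y) →
      ∃ y, IsMin3 p (f a) (f b) (f c) y ∧ upd ⊤ p f v = Function.update f v y := by
    intro v a b c h
    refine ⟨_, ?_, rfl⟩
    have h1 : ∃ y, ∀ z, Psi ⊤ p f v y ≤ Psi ⊤ p f v z := by
      simp only [h]; exact ex_min hp (hf a) (hf b) (hf c)
    intro z
    rw [← h, ← h]
    exact Classical.epsilon_spec h1 z
  refine ⟨?_, ?_, ?_, ?_⟩
  · obtain ⟨y, h1, h2⟩ := key 0 1 2 3 fun y => by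
      simp [Psi, P3, Finset.sum_filter, Fin.sum_univ_four]
    exact ⟨y, h1, h2.trans (by funext i; fin_cases i <;> simp)⟩
  · obtain ⟨y, h1, h2⟩ := key 1 0 2 3 fun y => by
      simp [Psi, P3, Finset.sum_filter, Fin.sum_univ_four]
    exact ⟨y, h1, h2.trans (by funext i; fin_cases i <;> simp)⟩
  · obtain ⟨y, h1, h2⟩ := key 2 0 1 3 fun y => by
      simp [Psi, P3, Finset.sum_filter, Fin.sum_univ_four]
    exact ⟨y, h1, h2.trans (by funext i; fin_cases i <;> simp)⟩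
  · obtain ⟨y, h1, h2⟩ := key 3 0 1 2 fun y => by
      simp [Psi, P3, Finset.sum_filter, Fin.sum_univ_four]
    exact ⟨y, h1, h2.trans (by funext i; fin_cases i <;> simp)⟩

lemma upd_mem {p : ℝ} (hp : 0 < p) (f : Fin 4 → ℝ) (hf : ∀ v, I01 (f v)) (v : Fin 4) :
    ∀ w, I01 (upd ⊤ p f v w) := by
  obtain ⟨⟨y0, a0, b0⟩, ⟨y1, a1, b1⟩, ⟨y2, a2, b2⟩, ⟨y3, a3, b3⟩⟩ := upd_spec hp f hf
  have c0 := min_mem hp (hf _) (hf _) (hf _) a0
  have c1 := min_mem hp (hf _) (hf _) (hf _) a1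
  have c2 := min_mem hp (hf _) (hf _) (hf _) a2
  have c3 := min_mem hp (hf _) (hf _) (hf _) a3
  intro w
  fin_cases v <;> fin_cases w <;> simp only [Fin.zero_eta, Fin.mk_one, Fin.reduceFinMk, b0, b1,
    b2, b3, Matrix.cons_val_zero, Matrix.cons_val_one, Matrix.cons_val] <;>
    first | exact hf _ | assumption

lemma sweep {p : ℝ} (hp : 1 < p) (f : Fin 4 → ℝ) (hf : ∀ v, I01 (f v)) :
    osc (upd ⊤ p (upd ⊤ p (upd ⊤ p (upd ⊤ p f 0) 1) 2) 3) ≤ 18 * (p - 1) := by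
  have h0 : (0 : ℝ) < p := by linarith
  have m1 := upd_mem h0 f hf 0
  have m2 := upd_mem h0 _ m1 1
  have m3 := upd_mem h0 _ m2 2
  obtain ⟨y0, a0, b0⟩ := (upd_spec h0 f hf).1
  obtain ⟨y1, a1, b1⟩ := (upd_spec h0 _ m1).2.1
  obtain ⟨y2, a2, b2⟩ := (upd_spec h0 _ m2).2.2.1
  obtain ⟨y3, a3, b3⟩ := (upd_spec h0 _ m3).2.2.2
  rw [b3]
  have n1 := m1 0
  have n2 := m2 1
  have n3 := m3 2
  rw [b2] at a3 n3 ⊢
  rw [b1] at a2 a3 n2 ⊢
  rw [b0] at a1 a2 a3 n1 ⊢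
  simp only [Matrix.cons_val_zero, Matrix.cons_val_one, Matrix.cons_val] at a1 a2 a3 n1 n2 n3 ⊢
  obtain ⟨m, hm1, hm2⟩ := ex_med (f 1) (f 2) (f 3)
  have c0 : m - 3 * (p - 1) ≤ y0 := by
    rcases hm1 with h | h | h
    · exact lo hp (hf _) (hf _) (hf _) a0 h.1 h.2
    · exact lo hp (hf _) (hf _) (hf _) (perm1 a0) h.1 h.2
    · exact lo hp (hf _) (hf _) (hf _) (perm2 a0) h.1 h.2
  have c1 : y0 ≤ m + 3 * (p - 1) := by
    rcases hm2 with h | h | h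
    · exact hi hp (hf _) (hf _) (hf _) a0 h.1 h.2
    · exact hi hp (hf _) (hf _) (hf _) (perm1 a0) h.1 h.2
    · exact hi hp (hf _) (hf _) (hf _) (perm2 a0) h.1 h.2
  have d0 : m - 3 * (p - 1) - 3 * (p - 1) ≤ y1 := by
    rcases hm1 with h | h | h
    · exact lo hp (hf _) n1 (hf _) (perm1 a1) c0 (by linarith [h.2])
    · exact lo hp (hf _) n1 (hf _) (perm1 a1) c0 (by linarith [h.2])
    · exact lo hp (hf _) n1 (hf _) (perm2 a1) c0 (by linarith [h.2])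
  have d1 : y1 ≤ m + 3 * (p - 1) + 3 * (p - 1) := by
    rcases hm2 with h | h | h
    · exact hi hp (hf _) n1 (hf _) (perm1 a1) c1 (by linarith [h.2])
    · exact hi hp (hf _) n1 (hf _) (perm1 a1) c1 (by linarith [h.2])
    · exact hi hp (hf _) n1 (hf _) (perm2 a1) c1 (by linarith [h.2])
  have e0 := lo hp (hf _) n1 n2 (perm2 a2) (u := m - 6 * (p - 1)) (by linarith) (by linarith)
  have e1 := hi hp (hf _) n1 n2 (perm2 a2) (u := m + 6 * (p - 1)) (by linarith) (by linarith)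
  have g0 := lo hp n3 n1 n2 (perm2 a3) (u := m - 6 * (p - 1)) (by linarith) (by linarith)
  have g1 := hi hp n3 n1 n2 (perm2 a3) (u := m + 6 * (p - 1)) (by linarith) (by linarith)
  have := osc_le ![y0, y1, y2, y3] (m - 9 * (p - 1)) (m + 9 * (p - 1)) fun v => by
    fin_cases v <;> simp only [Fin.zero_eta, Fin.mk_one, Fin.reduceFinMk, Matrix.cons_val_zero,
      Matrix.cons_val_one, Matrix.cons_val] <;> constructor <;> linarith
  linarith

lemma fast {p ε : ℝ} (hp : 1 < p) (hε : 18 * (p - 1) ≤ ε) (t : ℕ) : ∀ f : Fin 4 → ℝ,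
    (∀ v, I01 (f v)) → (cnt ⊤ p ε t f : ℝ) ≤ 2 * (1023 / 256) ^ t := by
  have h0 : (0 : ℝ) < p := by linarith
  induction t using Nat.strong_induction_on with
  | _ t ih =>
    intro f hf
    by_cases ht : t < 4
    · have : (cnt ⊤ p ε t f : ℝ) ≤ 4 ^ t := by exact_mod_cast cnt_le ⊤ p ε t f
      refine this.trans ?_
      interval_cases t <;> norm_num
    obtain ⟨s, rfl⟩ : ∃ s, t = s + 4 := ⟨t - 4, by omega⟩
    have step : ∀ (k : ℕ) (g : Fin 4 → ℝ), (cnt ⊤ p ε (k + 1) g : ℝ) ≤ cnt ⊤ p ε k (upd ⊤ p g 0) +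
        cnt ⊤ p ε k (upd ⊤ p g 1) + cnt ⊤ p ε k (upd ⊤ p g 2) + cnt ⊤ p ε k (upd ⊤ p g 3) := by
      intro k g
      have := cnt_succ ⊤ p ε k g
      rw [Fin.sum_univ_four] at this
      exact_mod_cast this
    have B0 := ih s (by omega)
    have up : ∀ (k : ℕ) (B : ℝ), (∀ g : Fin 4 → ℝ, (∀ v, I01 (g v)) → (cnt ⊤ p ε k g : ℝ) ≤ B) →
        ∀ g : Fin 4 → ℝ, (∀ v, I01 (g v)) → (cnt ⊤ p ε (k + 1) g : ℝ) ≤ 4 * B := by
      intro k B h g hg
      linarith [step k g, h _ (upd_mem h0 g hg 0), h _ (upd_mem h0 g hg 1),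
        h _ (upd_mem h0 g hg 2), h _ (upd_mem h0 g hg 3)]
    have B1 := up _ _ B0
    have B2 := up _ _ B1
    have B3 := up _ _ B2
    have m1 := upd_mem h0 f hf 0
    have m2 := upd_mem h0 _ m1 1
    have m3 := upd_mem h0 _ m2 2
    have z : (cnt ⊤ p ε s (upd ⊤ p (upd ⊤ p (upd ⊤ p (upd ⊤ p f 0) 1) 2) 3) : ℝ) = 0 := by
      rw [cnt_zero _ _ _ _ _ ((sweep hp f hf).trans hε)]; simp
    have e : (1023 / 256 : ℝ) ^ (s + 4) = (1023 / 256) ^ s * (1023 / 256) ^ 4 := pow_add _ _ _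
    have hpos : (0 : ℝ) < (1023 / 256) ^ s := by positivity
    have s3 := step (s + 1 + 1 + 1) f
    have s2 := step (s + 1 + 1) (upd ⊤ p f 0)
    have s1 := step (s + 1) (upd ⊤ p (upd ⊤ p f 0) 1)
    have s0 := step s (upd ⊤ p (upd ⊤ p (upd ⊤ p f 0) 1) 2)
    rw [e]
    norm_num
    linarith [B3 _ (upd_mem h0 f hf 1), B3 _ (upd_mem h0 f hf 2), B3 _ (upd_mem h0 f hf 3),
      B2 _ (upd_mem h0 _ m1 0), B2 _ (upd_mem h0 _ m1 2), B2 _ (upd_mem h0 _ m1 3),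
      B1 _ (upd_mem h0 _ m2 0), B1 _ (upd_mem h0 _ m2 1), B1 _ (upd_mem h0 _ m2 3),
      B0 _ (upd_mem h0 _ m3 0), B0 _ (upd_mem h0 _ m3 1), B0 _ (upd_mem h0 _ m3 2)]

def Sp (a b c r : ℝ) : Prop := r ≤ |a - b| ∨ r ≤ |a - c| ∨ r ≤ |b - c|

def Wide (f : Fin 4 → ℝ) (r : ℝ) : Prop := (∀ v, I01 (f v)) ∧
  Sp (f 1) (f 2) (f 3) r ∧ Sp (f 0) (f 2) (f 3) r ∧ Sp (f 0) (f 1) (f 3) r ∧ Sp (f 0) (f 1) (f 2) r

lemma sp_mean {a b c r : ℝ} (hr : 0 ≤ r) (h : Sp a b c r) : Sp a b c (r / 3) ∧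
    (r / 3 ≤ |(a + b + c) / 3 - a| ∨ r / 3 ≤ |(a + b + c) / 3 - b|) ∧
    (r / 3 ≤ |(a + b + c) / 3 - a| ∨ r / 3 ≤ |(a + b + c) / 3 - c|) ∧
    (r / 3 ≤ |(a + b + c) / 3 - b| ∨ r / 3 ≤ |(a + b + c) / 3 - c|) := by
  unfold Sp at *
  simp only [le_abs] at *
  refine ⟨?_, ?_, ?_, ?_⟩ <;> by_contra hc <;> simp only [not_or, not_le] at hc <;>
    rcases h with (h | h) | (h | h) | (h | h) <;>
    first
    | linarith [hc.1.1, hc.1.2, hc.2.1.1, hc.2.1.2, hc.2.2.1, hc.2.2.2]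
    | linarith [hc.1.1, hc.1.2, hc.2.1, hc.2.2]

lemma wide_upd {f : Fin 4 → ℝ} {r : ℝ} (hr : 0 ≤ r) (h : Wide f r) (v : Fin 4) :
    Wide (upd ⊤ 2 f v) (r / 3) := by
  obtain ⟨hf, w0, w1, w2, w3⟩ := h
  refine ⟨upd_mem two_pos f hf v, ?_⟩
  obtain ⟨⟨y0, a0, b0⟩, ⟨y1, a1, b1⟩, ⟨y2, a2, b2⟩, ⟨y3, a3, b3⟩⟩ := upd_spec two_pos f hf
  have c0 := sp_mean hr w0
  have c1 := sp_mean hr w1
  have c2 := sp_mean hr w2
  have c3 := sp_mean hr w3
  rw [← mean_of_min a0] at c0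
  rw [← mean_of_min a1] at c1
  rw [← mean_of_min a2] at c2
  rw [← mean_of_min a3] at c3
  have t1 : ∀ {y a b r : ℝ}, (r ≤ |y - a| ∨ r ≤ |y - b|) →
      Sp y a b r ∧ Sp a y b r ∧ Sp a b y r := by
    intro y a b r h
    unfold Sp
    rw [abs_sub_comm a y, abs_sub_comm b y]
    rcases h with h | h <;> simp [h]
  have hv : v = 0 ∨ v = 1 ∨ v = 2 ∨ v = 3 := by fin_cases v <;> simp
  rcases hv with rfl | rfl | rfl | rfl
  · rw [b0]; exact ⟨c0.1, (t1 c0.2.2.2).1, (t1 c0.2.2.1).1, (t1 c0.2.1).1⟩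
  · rw [b1]; exact ⟨(t1 c1.2.2.2).1, c1.1, (t1 c1.2.2.1).2.1, (t1 c1.2.1).2.1⟩
  · rw [b2]; exact ⟨(t1 c2.2.2.2).2.1, (t1 c2.2.2.1).2.1, c2.1, (t1 c2.2.1).2.2⟩
  · rw [b3]; exact ⟨(t1 c3.2.2.2).2.2, (t1 c3.2.2.1).2.2, (t1 c3.2.1).2.2, c3.1⟩

lemma wide_run (l : List (Fin 4)) : ∀ (f : Fin 4 → ℝ) (r : ℝ), 0 ≤ r → Wide f r →
    r / 3 ^ l.length ≤ osc (l.foldl (upd ⊤ 2) f) := by
  induction l with
  | nil =>
    intro f r _ h
    simp only [List.length_nil, pow_zero, div_one, List.foldl_nil]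
    rcases h.2.1 with h | h | h <;> rcases le_abs.1 h with h | h <;>
      linarith [le_osc f 1 2, le_osc f 2 1, le_osc f 1 3, le_osc f 3 1, le_osc f 2 3, le_osc f 3 2]
  | cons v l ih =>
    intro f r hr h
    have := ih _ _ (by linarith) (wide_upd hr h v)
    rw [List.foldl_cons, List.length_cons, pow_succ', ← div_div]
    exact this

theorem result : ¬ ∃ C : ℝ≥0, ∀ n : ℕ, 1 < n → ∀ G : SimpleGraph (Fin n), G.Connected →
    ∀ f : Fin n → ℝ, (∀ v, 0 ≤ f v ∧ f v ≤ 1) → ∀ ε : ℝ, 0 < ε → ∀ p₁ p₂ : ℝ, 1 < p₁ → p₁ < p₂ →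
      expT G p₂ ε f ≤ C * expT G p₁ ε f := by
  rintro ⟨C, hC⟩
  obtain ⟨N, hN⟩ := exists_nat_gt (C * 2048)
  have hε : (0 : ℝ) < 1 / 3 ^ N := by positivity
  have hε1 : (1 : ℝ) / 3 ^ N ≤ 1 := by
    rw [div_le_one (by positivity)]; exact one_le_pow₀ (by norm_num)
  have hf : ∀ v, I01 ((![0, 0, 1, 1] : Fin 4 → ℝ) v) := by
    intro v; fin_cases v <;> simp [I01]
  have h := hC 4 (by norm_num) ⊤ (by simp) ![0, 0, 1, 1] hf (1 / 3 ^ N) hε (1 + 1 / 3 ^ N / 18) 2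
    (by linarith) (by linarith)
  have h1 : expT (⊤ : SimpleGraph (Fin 4)) (1 + 1 / 3 ^ N / 18) (1 / 3 ^ N) ![0, 0, 1, 1] ≤ 2048 := by
    have hs : HasSum (fun t : ℕ => 2 * (1023 / 1024 : ℝ) ^ t) 2048 := by
      have := (hasSum_geometric_of_lt_one (r := 1023 / 1024) (by norm_num) (by norm_num)).mul_left 2
      norm_num at this
      exact this
    have h2 : (2048 : ℝ≥0∞) = ∑' t : ℕ, ENNReal.ofReal (2 * (1023 / 1024 : ℝ) ^ t) := by
      rw [← ENNReal.ofReal_tsum_of_nonneg (fun t => by positivity) hs.summable, hs.tsum_eq]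
      simp
    rw [h2]
    refine ENNReal.tsum_le_tsum fun t => ?_
    have h3 := fast (p := 1 + 1 / 3 ^ N / 18) (ε := 1 / 3 ^ N) (by linarith) (by linarith) t _ hf
    have h4 : ((4 : ℕ) : ℝ≥0∞) ^ t = ENNReal.ofReal (4 ^ t) := by
      rw [ENNReal.ofReal_pow (by norm_num)]; simp
    rw [h4, ← ENNReal.ofReal_natCast, ← ENNReal.ofReal_div_of_pos (by positivity)]
    refine ENNReal.ofReal_le_ofReal ?_
    rw [div_le_iff₀ (by positivity), mul_assoc, ← mul_pow,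
      show (1023 / 1024 * 4 : ℝ) = 1023 / 256 by norm_num]
    exact h3
  have h2 : (N : ℝ≥0∞) ≤ expT (⊤ : SimpleGraph (Fin 4)) 2 (1 / 3 ^ N) ![0, 0, 1, 1] := by
    refine le_trans ?_ (ENNReal.sum_le_tsum (Finset.range N))
    rw [Finset.sum_congr rfl (g := fun _ => 1)]
    · simp
    intro t ht
    have h3 : cnt (⊤ : SimpleGraph (Fin 4)) 2 (1 / 3 ^ N) t ![0, 0, 1, 1] = 4 ^ t := by
      rw [cnt, Finset.filter_true_of_mem]
      · simp
      intro w _ s hs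
      refine lt_of_lt_of_le ?_ (wide_run _ _ 1 zero_le_one ⟨hf, by simp [Sp]⟩)
      refine one_div_lt_one_div_of_lt (by positivity) (pow_lt_pow_right₀ (by norm_num) ?_)
      have := Finset.mem_range.1 ht
      simp only [List.length_take, List.length_ofFn]
      omega
    rw [h3, Nat.cast_pow]
    exact ENNReal.div_self (by simp) (by simp)
  have h3 : (N : ℝ≥0∞) ≤ C * 2048 := h2.trans (h.trans (by gcongr))
  have h4 : (N : ℝ≥0) ≤ C * 2048 := by exact_mod_cast h3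
  exact absurd hN h4.not_gt

end Pool.Agent.Results.MP_7677b2_pr.Median
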